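import Mathlib
import Pool.Agent.Results.MP_181197_gt.CounterexampleCH
import Pool.Agent.Helper292.ForceCH

/-!
# It is consistent with ZFC that `C_p(X)` is perfectly normal and its square is not

The forcing language is the one of `Helper292.ForceCH`: a sentence is the set of the conditions
which force it; `CHHolds P` says that `ω₁` many subsets of `ℕ` are all subsets of `ℕ`.
-/

set_option autoImplicit false

namespace Pool.Agent.Results.MP_181197_gt.ForcedFailure

open Set Cardinal Pool.Agent.Helper292.ForceCH

/-- (1) Some forcing notion forces that `ω₁` is preserved and that the continuum hypothesis holds.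
(2) The continuum hypothesis implies that there is a Tychonoff space `X` such that `C_p(X)` is
hereditarily Lindelof and perfectly normal, but its square is not perfectly normal and contains an
uncountable discrete subspace. -/
theorem result :
    (∃ (P : Type) (_ : Preorder P), Nonempty P ∧ ∀ p : P,
      p ∈ OmegaOnePreserved P ∧ p ∈ CHHolds P) ∧
    ((ℵ₁ : Cardinal.{0}) = 𝔠 →
      ∃ (X : Type) (_ : TopologicalSpace X), T35Space X ∧
        HereditarilyLindelofSpace {f : X → ℝ // Continuous f} ∧
        (NormalSpace {f : X → ℝ // Continuous f} ∧
          ∀ s : Set {f : X → ℝ // Continuous f}, IsClosed s → IsGδ s) ∧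
        ¬ (NormalSpace ({f : X → ℝ // Continuous f} × {f : X → ℝ // Continuous f}) ∧
          ∀ s : Set ({f : X → ℝ // Continuous f} × {f : X → ℝ // Continuous f}),
            IsClosed s → IsGδ s) ∧
        ∃ D : Set ({f : X → ℝ // Continuous f} × {f : X → ℝ // Continuous f}),
          ¬ D.Countable ∧ DiscreteTopology D) := by
  refine ⟨?_, fun h => CounterexampleCH.result h.symm⟩
  · obtain ⟨P, i, h1, h2⟩ := exists_forcing
    exact ⟨P, i, h1, fun p => ⟨(h2 p).1, (h2 p).2.2⟩⟩

end Pool.Agent.Results.MP_181197_gt.ForcedFailure
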